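import Pool.Agent.Y33.RN.Stm

/-!
# Powers of `b` and `c` are not conjugate in the base group (job RN-RB8)
-/

set_option autoImplicit false

namespace Pool.Agent.Y210.RN

open Pool.Agent.TH54.BU Pool.Agent.Y33.SM Pool.Agent.H17R2 Pool.Agent.Y33.RN
open FreeGroup

lemma norm_red {l : List (Fin 5 × Bool)} (h : FreeGroup.IsReduced l) :
    FreeGroup.norm (FreeGroup.mk l : F5) = l.length := by
  rw [FreeGroup.norm, toWord_mk, h.reduce_eq]

lemma fd_take {l : List (Fin 5 × Bool)} (h : FreeGroup.IsReduced l) (i j : ℕ) (hij : i ≤ j)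
    (hj : j ≤ l.length) :
    fd (FreeGroup.mk (l.take i) : F5) (FreeGroup.mk (l.take j)) = (j : ℤ) - i := by
  have e : l.take j = l.take i ++ (l.take j).drop i := by
    have h1 := List.take_append_drop i (l.take j)
    rw [List.take_take, min_eq_left hij] at h1
    exact h1.symm
  have hr : FreeGroup.IsReduced ((l.take j).drop i) := by
    have h1 : FreeGroup.IsReduced (l.take j) := by
      have h2 := h
      rw [← List.take_append_drop j l] at h2
      exact (List.isChain_append.1 h2).1
    rw [e] at h1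
    exact (List.isChain_append.1 h1).2.1
  have e2 : (FreeGroup.mk (l.take i) : F5)⁻¹ * FreeGroup.mk (l.take j) =
      FreeGroup.mk ((l.take j).drop i) := by
    conv_lhs => rw [e, ← mul_mk]
    rw [inv_mul_cancel_left]
  unfold fd
  rw [e2, norm_red hr]
  simp only [List.length_drop, List.length_take]
  omega

lemma lab_iso {W : Words (Fin 5)} {K : ℤ} (hW : RW K W) (b : (ℤ → Fin 5 × Bool) × ℤ) (hb : b ∈ W.B)
    (s : ℤ) (ε : Bool) (k : ℤ) (h : (lab b.1 s ε k).1 = (lab b.1 s ε (k + 1)).1) :
    3 ≤ ((lab b.1 s ε k).1 : ℕ) := by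
  cases ε with
  | true =>
    simp only [lab] at h ⊢
    have h1 := hW.iso b hb (s + k)
    rw [show s + k + 1 = s + (k + 1) by ring] at h1
    exact h1 h
  | false =>
    simp only [lab, inv2] at h ⊢
    have h1 := hW.iso b hb (s - (k + 1) - 1)
    rw [show s - (k + 1) - 1 + 1 = s - k - 1 by ring] at h1
    rw [h]
    exact h1 h.symm

/-- a nonempty reduced word which is trivial in the quotient follows a relator -/
lemma follow {W : Words (Fin 5)} {K : ℤ} (hW : RW K W) (Wd : List (Fin 5 × Bool))
    (hr : FreeGroup.IsReduced Wd) (hne : Wd ≠ []) (hN : (FreeGroup.mk Wd : F5) ∈ W.toFam.N) :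
    ∃ x ∈ W.toFam.fam, ∃ α D : ℕ, (W.K - 6) * x.2 ≤ W.K * D ∧ α + D ≤ Wd.length ∧
      (∀ k : ℕ, k ≤ D → x.1 k = FreeGroup.mk (Wd.take (α + k))) ∧
      ∀ i : ℕ, α ≤ i → i + 1 < α + D → ∀ u v, Wd[i]? = some u → Wd[i + 1]? = some v →
        u.1 = v.1 → 3 ≤ (u.1 : ℕ) := by
  set m : F5 := FreeGroup.mk Wd with hm
  have hnorm : FreeGroup.norm m = Wd.length := norm_red hr
  have hpos : 0 < Wd.length := List.length_pos_of_ne_nil hne
  have hm1 : m ≠ 1 := by
    intro h
    rw [h, FreeGroup.norm_one] at hnorm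
    omega
  obtain ⟨x, hx, D, hD, hKD, hd⟩ := W.toFam.greendlinger m hN hm1
  have hline := W.toFam.line _ hx
  have hd' : fd 1 m = fd 1 (x.1 0) + D + fd (x.1 D) m := by
    have e : m • (W.toFam.v0) = m := by
      show m * 1 = m
      simp
    rw [e] at hd
    exact hd
  have hlen : fd 1 m = Wd.length := by rw [fd_one, hnorm]
  obtain ⟨α, hα⟩ := Int.eq_ofNat_of_zero_le (fd_nonneg 1 (x.1 0))
  obtain ⟨D, rfl⟩ := Int.eq_ofNat_of_zero_le hD.le
  have hrest := fd_nonneg (x.1 D) m
  have hαD : α + D ≤ Wd.length := by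
    have : (α : ℤ) + D ≤ Wd.length := by rw [← hlen, hd', hα]; linarith
    exact_mod_cast this
  have hpts : ∀ k : ℕ, k ≤ D → x.1 k = FreeGroup.mk (Wd.take (α + k)) := by
    intro k hk
    have h1 : fd (x.1 0) (x.1 k) = k := by
      have := hline 0 k
      change fd _ _ = _ at this
      rw [this, zero_sub, abs_neg, abs_of_nonneg (by positivity)]
    have h2 : fd (x.1 k) (x.1 D) = D - k := by
      have := hline k D
      change fd _ _ = _ at this
      rw [this, abs_sub_comm, abs_of_nonneg (by omega)]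
    have h3 := fd_tri 1 (x.1 0) (x.1 k)
    have h4 := fd_tri (x.1 k) (x.1 D) m
    have h5 := fd_tri 1 (x.1 k) m
    set u : F5 := FreeGroup.mk (Wd.take (α + k)) with hu
    have h6 : fd 1 u = (α + k : ℕ) := by
      have := fd_take hr 0 (α + k) (Nat.zero_le _) (by omega)
      rw [List.take_zero, FreeGroup.one_eq_mk.symm, Nat.cast_zero, sub_zero] at this
      exact this
    have h7 : fd u m = Wd.length - (α + k : ℕ) := by
      have := fd_take hr (α + k) Wd.length (by omega) le_rfl
      rw [List.take_length] at this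
      exact this
    have h8 := (fTree (Fin 5)).four (x.1 k) u 1 m
    change fd (x.1 k) u + fd 1 m ≤ max (fd (x.1 k) 1 + fd u m) (fd (x.1 k) m + fd u 1) at h8
    rw [fd_comm (x.1 k) 1, fd_comm u 1] at h8
    have h9 := fd_nonneg (x.1 k) u
    apply fd_zero
    rcases le_max_iff.1 h8 with h10 | h10 <;> push_cast at h6 h7 <;> omega
  refine ⟨x, hx, α, D, hKD, hαD, hpts, ?_⟩
  intro i hi hi2 u v hu hv huv
  obtain ⟨b, hb, g, s, ε, rfl⟩ := hx
  obtain ⟨k, rfl⟩ := Nat.exists_eq_add_of_le hi
  have hstep : ∀ j : ℕ, j < D → ∀ u, Wd[α + j]? = some u → lab b.1 s ε j = u := by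
    intro j hj u hu
    have e1 := hpts j hj.le
    have e2 := hpts (j + 1) hj
    simp only at e1 e2
    push_cast at e2
    rw [Words.ln_succ, e1, ← add_assoc, List.take_add_one, hu, ← mul_mk] at e2
    exact Words.mk_single_inj (mul_left_cancel e2)
  have e1 := hstep k (by omega) u hu
  have e2 := hstep (k + 1) (by omega) v hv
  have h1 := lab_iso hW b hb s ε k
  push_cast at e2
  rw [e1, e2] at h1
  exact h1 huv

/-- shortening along a relator -/
lemma shorten {W : Words (Fin 5)} (x : (ℤ → F5) × ℤ) (hx : x ∈ W.toFam.fam) (P h : F5) (k0 k1 : ℤ)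
    (hd : fd P (x.1 k0) + (k1 - k0) + fd (x.1 k1) (P * h) ≤ FreeGroup.norm h)
    (hL : x.2 < 2 * (k1 - k0)) :
    ∃ h' : F5, (h' : F5 ⧸ W.toFam.N) = (h : F5 ⧸ W.toFam.N) ∧
      FreeGroup.norm h' < FreeGroup.norm h := by
  obtain ⟨t, ht, htr⟩ := W.exists_tr x hx
  have hline := W.toFam.line _ hx
  have hK := W.hK
  have hKL : W.K ≤ x.2 := W.toFam.KL _ hx
  refine ⟨P⁻¹ * t⁻¹ * P * h, ?_, ?_⟩
  · have h1 : ((t : F5) : F5 ⧸ W.toFam.N) = 1 := (QuotientGroup.eq_one_iff t).2 ht
    simp only [QuotientGroup.mk_mul, QuotientGroup.mk_inv, h1]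
    group
  · have h1 : fd P (t⁻¹ * (P * h)) = FreeGroup.norm (P⁻¹ * t⁻¹ * P * h) := by
      unfold fd
      congr 2; group
    have h2 := fd_tri P (x.1 k0) (t⁻¹ * (P * h))
    have h3 := fd_tri (x.1 k0) (t⁻¹ * x.1 k1) (t⁻¹ * (P * h))
    rw [fd_mul] at h3
    have h4 : t⁻¹ * x.1 k1 = x.1 (k1 - x.2) := by
      have := htr (k1 - x.2)
      rw [sub_add_cancel] at this
      rw [← this, inv_mul_cancel_left]
    have h5 : fd (x.1 k0) (x.1 (k1 - x.2)) = |k0 - (k1 - x.2)| := hline _ _
    rw [h4, h5] at h3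
    have h6 : |k0 - (k1 - x.2)| < k1 - k0 := by
      rw [abs_lt]
      constructor <;> omega
    omega

lemma mk_rep (i : Fin 5) (e : Bool) (n : ℕ) :
    (FreeGroup.mk (List.replicate n (i, e)) : F5) = (FreeGroup.mk [(i, e)]) ^ n := by
  induction n with
  | zero => rfl
  | succ n ih =>
    rw [List.replicate_succ, pow_succ', ← ih, mul_mk]
    rfl

lemma zpow_word (i : Fin 5) (z : ℤ) : ∃ e : Bool,
    (FreeGroup.of i : F5) ^ z = FreeGroup.mk (List.replicate z.natAbs (i, e)) := by
  rcases Int.natAbs_eq z with h | h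
  · refine ⟨true, ?_⟩
    rw [mk_rep]
    conv_lhs => rw [h]
    rw [zpow_natCast]
    rfl
  · refine ⟨false, ?_⟩
    rw [mk_rep]
    conv_lhs => rw [h]
    rw [zpow_neg, zpow_natCast, ← inv_pow]
    rfl

lemma red_rep (i : Fin 5) (e : Bool) (n : ℕ) : FreeGroup.IsReduced (List.replicate n (i, e)) := by
  unfold FreeGroup.IsReduced
  rw [List.isChain_iff_getElem]
  intro k hk h
  simp

lemma big {K L D : ℤ} (hK : 100 ≤ K) (hL : K ≤ L) (h : (K - 6) * L ≤ K * D) : 3 * L ≤ 4 * D := by
  by_contra hcon
  push Not at hcon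
  nlinarith

theorem t : S_RB8 := by
  classical
  refine ⟨100, fun K hK W hW g p q hp hrel => ?_⟩
  have hWK : 100 ≤ W.K := by rw [hW.hK]; exact hK
  obtain ⟨β, hβ⟩ : ∃ β : F5 ⧸ W.toFam.N, β = ((FreeGroup.of 1 : F5) : F5 ⧸ W.toFam.N) := ⟨_, rfl⟩
  obtain ⟨c, hc⟩ : ∃ c : F5 ⧸ W.toFam.N, c = ((FreeGroup.of 2 : F5) : F5 ⧸ W.toFam.N) := ⟨_, rfl⟩
  rw [← hβ, ← hc] at hrel
  by_cases hq : q = 0
  · -- the case `q = 0`
    subst hq
    have h1 : β ^ p = 1 := by
      have h2 : β ^ p = g⁻¹ * (g * β ^ p * g⁻¹) * g := by group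
      rw [h2, hrel]
      group
    have h2 : ((FreeGroup.of 1 : F5) ^ p) ∈ W.toFam.N := by
      rw [← QuotientGroup.eq_one_iff, QuotientGroup.mk_zpow, ← hβ, h1]
    obtain ⟨e, he⟩ := zpow_word 1 p
    rw [he] at h2
    obtain ⟨x, hx, α, D, hKD, hαD, -, hiso⟩ := follow hW _ (red_rep 1 e p.natAbs)
      (by
        intro h
        have := congrArg List.length h
        simp only [List.length_replicate, List.length_nil, Int.natAbs_eq_zero] at this
        exact hp this) h2
    have hKL : W.K ≤ x.2 := W.toFam.KL _ hx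
    have h3 := big hWK hKL hKD
    rw [List.length_replicate] at hαD
    have h4 := hiso α le_rfl (by omega) (1, e) (1, e)
      (by rw [List.getElem?_replicate, if_pos (by omega)])
      (by rw [List.getElem?_replicate, if_pos (by omega)]) rfl
    simp at h4
  · -- an element of minimal norm
    have hex : ∃ k : ℕ, ∃ g' : F5, FreeGroup.norm g' = k ∧
        ∃ i j : ℤ, (g' : F5 ⧸ W.toFam.N) = c ^ i * g * β ^ j := by
      obtain ⟨g0, hg0⟩ := QuotientGroup.mk_surjective g
      exact ⟨_, g0, rfl, 0, 0, by simp [hg0]⟩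
    obtain ⟨G, hG, i0, j0, hGQ⟩ := Nat.find_spec hex
    have hmin : ∀ g' : F5, (∃ i j : ℤ, (g' : F5 ⧸ W.toFam.N) = c ^ i * g * β ^ j) →
        FreeGroup.norm G ≤ FreeGroup.norm g' := by
      intro g' h
      rw [hG]
      exact Nat.find_min' hex ⟨g', rfl, h⟩
    have hrel' : (G : F5 ⧸ W.toFam.N) * β ^ p * (G : F5 ⧸ W.toFam.N)⁻¹ = c ^ q := by
      rw [hGQ]
      have e : c ^ i0 * g * β ^ j0 * β ^ p * (c ^ i0 * g * β ^ j0)⁻¹ =
          c ^ i0 * (g * β ^ p * g⁻¹) * (c ^ i0)⁻¹ := by group
      rw [e, hrel]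
      group
    obtain ⟨Gw, hGw⟩ : ∃ l, l = G.toWord := ⟨_, rfl⟩
    have hmkG : (FreeGroup.mk Gw : F5) = G := by rw [hGw, mk_toWord]
    have hGred : FreeGroup.IsReduced Gw := by rw [hGw]; exact isReduced_toWord
    obtain ⟨n, hn⟩ : ∃ n, n = Gw.length := ⟨_, rfl⟩
    have hnG : FreeGroup.norm G = n := by rw [← hmkG, norm_red hGred, hn]
    -- the first letter of `G`
    have hhead : ∀ y ∈ Gw.head?, y.1 ≠ 2 := by
      intro y hy hy2
      rw [Option.mem_def, List.head?_eq_some_iff] at hy
      obtain ⟨l, hl⟩ := hy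
      obtain ⟨y1, y2⟩ := y
      simp only at hy2
      subst hy2
      have h1 : G = FreeGroup.mk [(2, y2)] * FreeGroup.mk l := by
        rw [← hmkG, hl, mul_mk]; rfl
      have h2 := hmin (FreeGroup.mk l) (by
        have h3 : (FreeGroup.mk l : F5) = (FreeGroup.mk [(2, y2)])⁻¹ * G := by
          rw [h1, inv_mul_cancel_left]
        rw [h3, QuotientGroup.mk_mul, QuotientGroup.mk_inv, hGQ]
        cases y2 with
        | true =>
          have h4 : ((FreeGroup.mk [(2, true)] : F5) : F5 ⧸ W.toFam.N) = c := by rw [hc]; rfl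
          rw [h4]
          refine ⟨-1 + i0, j0, ?_⟩
          group
        | false =>
          have h4 : ((FreeGroup.mk [(2, false)] : F5) : F5 ⧸ W.toFam.N) = c⁻¹ := by rw [hc]; rfl
          rw [h4]
          refine ⟨1 + i0, j0, ?_⟩
          group)
      have h3 := norm_mk_le (L₁ := l)
      rw [hl] at hn
      simp only [List.length_cons] at hn
      omega
    -- the last letter of `G`
    have hlast : ∀ y ∈ Gw.getLast?, y.1 ≠ 1 := by
      intro y hy hy2
      rw [Option.mem_def, List.getLast?_eq_some_iff] at hy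
      obtain ⟨l, hl⟩ := hy
      obtain ⟨y1, y2⟩ := y
      simp only at hy2
      subst hy2
      have h1 : G = FreeGroup.mk l * FreeGroup.mk [(1, y2)] := by
        rw [← hmkG, hl, mul_mk]
      have h2 := hmin (FreeGroup.mk l) (by
        have h3 : (FreeGroup.mk l : F5) = G * (FreeGroup.mk [(1, y2)])⁻¹ := by
          rw [h1, mul_inv_cancel_right]
        rw [h3, QuotientGroup.mk_mul, QuotientGroup.mk_inv, hGQ]
        cases y2 with
        | true =>
          have h4 : ((FreeGroup.mk [(1, true)] : F5) : F5 ⧸ W.toFam.N) = β := by rw [hβ]; rfl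
          rw [h4]
          refine ⟨i0, j0 - 1, ?_⟩
          group
        | false =>
          have h4 : ((FreeGroup.mk [(1, false)] : F5) : F5 ⧸ W.toFam.N) = β⁻¹ := by rw [hβ]; rfl
          rw [h4]
          refine ⟨i0, j0 + 1, ?_⟩
          group)
      have h3 := norm_mk_le (L₁ := l)
      rw [hl] at hn
      simp only [List.length_append, List.length_singleton] at hn
      omega
    -- the word
    obtain ⟨e1, he1⟩ := zpow_word 2 (-(2 * q))
    obtain ⟨e2, he2⟩ := zpow_word 1 (2 * p)
    obtain ⟨a, ha⟩ : ∃ a : ℕ, a = (-(2 * q)).natAbs := ⟨_, rfl⟩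
    obtain ⟨b, hb⟩ : ∃ b : ℕ, b = (2 * p).natAbs := ⟨_, rfl⟩
    rw [← ha] at he1
    rw [← hb] at he2
    have ha2 : 2 ≤ a := by omega
    have hb2 : 2 ≤ b := by omega
    obtain ⟨Wd, hWd⟩ : ∃ Wd : List (Fin 5 × Bool), Wd = List.replicate a (2, e1) ++
      (Gw ++ (List.replicate b (1, e2) ++ invRev Gw)) := ⟨_, rfl⟩
    have hlen : Wd.length = a + (n + (b + n)) := by
      rw [hWd, hn]
      simp only [List.length_append, List.length_replicate, invRev_length]
    have hmk : (FreeGroup.mk Wd : F5) = FreeGroup.of 2 ^ (-(2 * q)) * (G *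
        (FreeGroup.of 1 ^ (2 * p) * G⁻¹)) := by
      rw [hWd, ← mul_mk, ← mul_mk, ← mul_mk, ← inv_mk, hmkG, he1, he2]
    have hN : (FreeGroup.mk Wd : F5) ∈ W.toFam.N := by
      rw [hmk, ← QuotientGroup.eq_one_iff]
      simp only [QuotientGroup.mk_mul, QuotientGroup.mk_inv, QuotientGroup.mk_zpow]
      rw [← hβ, ← hc]
      have e : c ^ (-(2 * q)) * ((G : F5 ⧸ W.toFam.N) * (β ^ (2 * p) * (G : F5 ⧸ W.toFam.N)⁻¹)) =
          c ^ (-(2 * q)) * (((G : F5 ⧸ W.toFam.N) * β ^ p * (G : F5 ⧸ W.toFam.N)⁻¹) *
            ((G : F5 ⧸ W.toFam.N) * β ^ p * (G : F5 ⧸ W.toFam.N)⁻¹)) := by group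
      rw [e, hrel']
      group
    have hred : FreeGroup.IsReduced Wd := by
      rw [hWd]
      unfold FreeGroup.IsReduced
      rw [List.isChain_append, List.isChain_append, List.isChain_append]
      refine ⟨red_rep _ _ _, ⟨hGred, ⟨red_rep _ _ _, isReduced_invRev hGred, ?_⟩, ?_⟩, ?_⟩
      · intro x hx y hy hxy
        exfalso
        have h1 := List.mem_replicate.1 (List.mem_of_getLast? hx)
        rw [h1.2] at hxy
        rw [invRev, List.head?_reverse, List.getLast?_map, Option.mem_def,
          Option.map_eq_some_iff] at hy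
        obtain ⟨z, hz, rfl⟩ := hy
        exact hlast z hz hxy.symm
      · intro x hx y hy hxy
        exfalso
        rw [List.head?_append_of_ne_nil _ (by
          intro h
          have := congrArg List.length h
          simp only [List.length_replicate, List.length_nil] at this
          omega)] at hy
        have h1 := List.mem_replicate.1 (List.mem_of_head? hy)
        rw [h1.2] at hxy
        exact hlast x hx hxy
      · intro x hx y hy hxy
        exfalso
        have h1 := List.mem_replicate.1 (List.mem_of_getLast? hx)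
        rw [h1.2] at hxy
        by_cases hG0 : Gw = []
        · rw [hG0, List.nil_append, List.head?_append_of_ne_nil _ (by
            intro h
            have := congrArg List.length h
            simp only [List.length_replicate, List.length_nil] at this
            omega)] at hy
          have h2 := List.mem_replicate.1 (List.mem_of_head? hy)
          rw [h2.2] at hxy
          simp at hxy
        · rw [List.head?_append_of_ne_nil _ hG0] at hy
          exact hhead y hy hxy.symm
    have hne : Wd ≠ [] := by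
      intro h
      rw [h] at hlen
      simp only [List.length_nil] at hlen
      omega
    obtain ⟨x, hx, α, D, hKD, hαD, hpts, hiso⟩ := follow hW Wd hred hne hN
    have hKL : W.K ≤ x.2 := W.toFam.KL _ hx
    have hbig := big hWK hKL hKD
    have hline := W.toFam.line _ hx
    rw [hlen] at hαD
    have hgetA : ∀ i : ℕ, i < a → Wd[i]? = some (2, e1) := by
      intro i hi
      rw [hWd, List.getElem?_append_left (by rw [List.length_replicate]; exact hi),
        List.getElem?_replicate, if_pos hi]
    have hgetB : ∀ i : ℕ, a + n ≤ i → i < a + n + b → Wd[i]? = some (1, e2) := by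
      intro i hi hi2
      rw [hWd, List.getElem?_append_right (by rw [List.length_replicate]; omega),
        List.length_replicate, List.getElem?_append_right (by omega), ← hn,
        List.getElem?_append_left (by rw [List.length_replicate]; omega),
        List.getElem?_replicate, if_pos (by omega)]
    have hα1 : a ≤ α + 1 := by
      by_contra hcon
      push Not at hcon
      have h4 := hiso α le_rfl (by omega) (2, e1) (2, e1) (hgetA _ (by omega))
        (hgetA _ (by omega)) rfl
      simp at h4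
    have hcase : α + D ≤ a + n + 1 ∨ a + n + b ≤ α + 1 := by
      by_contra hcon
      push Not at hcon
      have h4 := hiso (max α (a + n)) (by omega) (by omega) (1, e2) (1, e2)
        (hgetB _ (by omega) (by omega)) (hgetB _ (by omega) (by omega)) rfl
      simp at h4
    rcases hcase with hcase | hcase
    · -- the overlap lies in `G`
      have hP : (FreeGroup.mk (Wd.take a) : F5) * G = FreeGroup.mk (Wd.take (a + n)) := by
        have h1 : Wd.take a = List.replicate a (2, e1) := by
          rw [hWd, List.take_left' (List.length_replicate)]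
        have h2 : Wd.take (a + n) = List.replicate a (2, e1) ++ Gw := by
          rw [hWd, ← List.append_assoc, List.take_left' (by
            rw [List.length_append, List.length_replicate, hn])]
        rw [h1, h2, ← mul_mk, hmkG]
      have h1 := fd_take hred a (α + (max α a - α)) (by omega) (by omega)
      rw [← hpts _ (by omega)] at h1
      have h2 := fd_take hred (α + (min (α + D) (a + n) - α)) (a + n) (by omega) (by omega)
      rw [← hpts _ (by omega), ← hP] at h2
      obtain ⟨h', h3, h4⟩ := shorten x hx (FreeGroup.mk (Wd.take a)) G _ _ (by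
        rw [h1, h2, hnG]
        omega) (by omega)
      have h5 := hmin h' ⟨i0, j0, by rw [h3, hGQ]⟩
      omega
    · -- the overlap lies in the inverse of `G`
      have hP : (FreeGroup.mk (Wd.take (a + n + b)) : F5) * G⁻¹ = FreeGroup.mk (Wd.take Wd.length) := by
        have h1 : Wd.take (a + n + b) = List.replicate a (2, e1) ++ Gw ++ List.replicate b (1, e2) := by
          rw [hWd, ← List.append_assoc, ← List.append_assoc, List.take_left' (by
            rw [List.length_append, List.length_append, List.length_replicate,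
              List.length_replicate, hn])]
        rw [h1, List.take_length, hWd, ← hmkG, inv_mk, mul_mk]
        simp only [List.append_assoc]
      have h1 := fd_take hred (a + n + b) (α + (max α (a + n + b) - α)) (by omega) (by omega)
      rw [← hpts _ (by omega)] at h1
      have h2 := fd_take hred (α + D) Wd.length (by omega) le_rfl
      rw [← hpts _ le_rfl, ← hP, hlen] at h2
      obtain ⟨h', h3, h4⟩ := shorten x hx (FreeGroup.mk (Wd.take (a + n + b))) G⁻¹ _ _ (by
        rw [h1, h2, FreeGroup.norm_inv_eq, hnG]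
        omega) (by omega)
      have h5 := hmin h'⁻¹ ⟨i0, j0, by
        rw [QuotientGroup.mk_inv, h3, QuotientGroup.mk_inv, inv_inv, hGQ]⟩
      rw [FreeGroup.norm_inv_eq] at h5 h4
      omega

end Pool.Agent.Y210.RN
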